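import Pool.Agent.Run7.h956.LT.STR

/-! Project LT (helper636), piece PRL (helper956): the Laplacian of a product. -/

set_option autoImplicit false

open scoped Matrix

noncomputable section

namespace Run7.h956.LT.PRL

open Module Pool.Agent.N496.LT Pool.Agent.TH630.Tor Pool.Agent.Helper993.FK Pool.Agent.Helper993.Delta
open Run7.h636.LT Run7.h956.LT.STR

section gen

variable {A B S I J : Type} [Ring A] [Ring B] [Ring S] [Fintype I] [DecidableEq I] [Fintype J] [DecidableEq J]

/-- a matrix in the first variable -/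
def lm (J : Type) [DecidableEq J] (f : A →+* S) (X : Matrix I I A) : Matrix (I × J) (I × J) S :=
  Matrix.of fun x y => if x.2 = y.2 then f (X x.1 y.1) else 0

/-- a matrix in the second variable -/
def rm (I : Type) [DecidableEq I] (f : B →+* S) (Y : Matrix J J B) : Matrix (I × J) (I × J) S :=
  Matrix.of fun x y => if x.1 = y.1 then f (Y x.2 y.2) else 0

theorem lm_mul (f : A →+* S) (X Y : Matrix I I A) : lm J f X * lm J f Y = lm J f (X * Y) := by
  ext1 x y
  rw [Matrix.mul_apply, Fintype.sum_prod_type]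
  unfold lm
  simp only [Matrix.of_apply, ite_mul, zero_mul, Finset.sum_ite_eq, Finset.mem_univ, if_true]
  split_ifs with h
  · rw [Matrix.mul_apply, map_sum]
    refine Finset.sum_congr rfl fun k _ => ?_
    rw [map_mul]
  · simp

theorem rm_mul (f : B →+* S) (X Y : Matrix J J B) : rm I f X * rm I f Y = rm I f (X * Y) := by
  ext1 x y
  rw [Matrix.mul_apply, Fintype.sum_prod_type_right]
  unfold rm
  simp only [Matrix.of_apply, ite_mul, zero_mul, Finset.sum_ite_eq, Finset.mem_univ, if_true]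
  split_ifs with h
  · rw [Matrix.mul_apply, map_sum]
    refine Finset.sum_congr rfl fun k _ => ?_
    rw [map_mul]
  · simp

theorem lm_add (f : A →+* S) (X Y : Matrix I I A) : lm J f (X + Y) = lm J f X + lm J f Y := by
  ext1 x y
  unfold lm
  rw [Matrix.add_apply, Matrix.of_apply, Matrix.of_apply, Matrix.of_apply]
  split_ifs
  · rw [Matrix.add_apply, map_add]
  · rw [add_zero]

theorem rm_add (f : B →+* S) (X Y : Matrix J J B) : rm I f (X + Y) = rm I f X + rm I f Y := by
  ext1 x y
  unfold rm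
  rw [Matrix.add_apply, Matrix.of_apply, Matrix.of_apply, Matrix.of_apply]
  split_ifs
  · rw [Matrix.add_apply, map_add]
  · rw [add_zero]

theorem lm_one (f : A →+* S) : lm J f (1 : Matrix I I A) = 1 := by
  ext1 x y
  unfold lm
  rw [Matrix.of_apply, Matrix.one_apply, Matrix.one_apply]
  by_cases h : x = y
  · subst h; simp
  · rw [if_neg h]
    split_ifs with h1 h2
    · exact absurd (Prod.ext h2 h1) h
    · exact map_zero f
    · rfl

theorem rm_one (f : B →+* S) : rm I f (1 : Matrix J J B) = 1 := by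
  ext1 x y
  unfold rm
  rw [Matrix.of_apply, Matrix.one_apply, Matrix.one_apply]
  by_cases h : x = y
  · subst h; simp
  · rw [if_neg h]
    split_ifs with h1 h2
    · exact absurd (Prod.ext h1 h2) h
    · exact map_zero f
    · rfl

theorem lm_pow (f : A →+* S) (X : Matrix I I A) (k : ℕ) : lm J f X ^ k = lm J f (X ^ k) := by
  induction k with
  | zero => rw [pow_zero, pow_zero, lm_one]
  | succ k ih => rw [pow_succ, pow_succ, ih, lm_mul]

theorem rm_pow (f : B →+* S) (X : Matrix J J B) (k : ℕ) : rm I f X ^ k = rm I f (X ^ k) := by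
  induction k with
  | zero => rw [pow_zero, pow_zero, rm_one]
  | succ k ih => rw [pow_succ, pow_succ, ih, rm_mul]

theorem lm_mul_rm (f : A →+* S) (g : B →+* S) (X : Matrix I I A) (Y : Matrix J J B) (x y : I × J) :
    (lm J f X * rm I g Y) x y = f (X x.1 y.1) * g (Y x.2 y.2) := by
  rw [Matrix.mul_apply, Finset.sum_eq_single (y.1, x.2)]
  · unfold lm rm
    rw [Matrix.of_apply, Matrix.of_apply, if_pos rfl, if_pos rfl]
  · intro z _ hz
    unfold lm rm
    rw [Matrix.of_apply, Matrix.of_apply]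
    by_cases h1 : x.2 = z.2
    · by_cases h2 : z.1 = y.1
      · exact absurd (Prod.ext h2 h1.symm : z = (y.1, x.2)) hz
      · rw [if_neg h2, mul_zero]
    · rw [if_neg h1, zero_mul]
  · intro h
    exact absurd (Finset.mem_univ _) h

theorem rm_mul_lm (f : A →+* S) (g : B →+* S) (X : Matrix I I A) (Y : Matrix J J B) (x y : I × J) :
    (rm I g Y * lm J f X) x y = g (Y x.2 y.2) * f (X x.1 y.1) := by
  rw [Matrix.mul_apply, Finset.sum_eq_single (x.1, y.2)]
  · unfold lm rm
    rw [Matrix.of_apply, Matrix.of_apply, if_pos rfl, if_pos rfl]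
  · intro z _ hz
    unfold lm rm
    rw [Matrix.of_apply, Matrix.of_apply]
    by_cases h1 : x.1 = z.1
    · by_cases h2 : z.2 = y.2
      · exact absurd (Prod.ext h1.symm h2 : z = (x.1, y.2)) hz
      · rw [if_neg h2, mul_zero]
    · rw [if_neg h1, zero_mul]
  · intro h
    exact absurd (Finset.mem_univ _) h

theorem comm (f : A →+* S) (g : B →+* S) (h : ∀ a b, f a * g b = g b * f a) (X : Matrix I I A)
    (Y : Matrix J J B) : lm J f X * rm I g Y = rm I g Y * lm J f X := by
  ext1 x y
  rw [lm_mul_rm, rm_mul_lm, h]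

end gen

variable {G H : Type} [Group G] [Group H]

theorem mdr_single {K : Type} [Group K] (f : G →* K) (g : G) (a : ℤ) :
    MonoidAlgebra.mapDomainRingHom ℤ f (MonoidAlgebra.single g a) = MonoidAlgebra.single (f g) a :=
  MonoidAlgebra.mapDomain_single

theorem inv_map {K : Type} [Group K] (f : G →* K) (a : MonoidAlgebra ℤ G) :
    MonoidAlgebra.mapDomain (fun g : K => g⁻¹) (MonoidAlgebra.mapDomainRingHom ℤ f a) =
      MonoidAlgebra.mapDomainRingHom ℤ f (MonoidAlgebra.mapDomain (fun g : G => g⁻¹) a) := by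
  induction a using MonoidAlgebra.induction_linear with
  | zero => rw [map_zero, MonoidAlgebra.mapDomain_zero, MonoidAlgebra.mapDomain_zero, map_zero]
  | add x x' h h' => rw [map_add, MonoidAlgebra.mapDomain_add, MonoidAlgebra.mapDomain_add, map_add, h, h']
  | single g a =>
    rw [MonoidAlgebra.mapDomain_single, mdr_single,
      mdr_single, MonoidAlgebra.mapDomain_single, map_inv]

theorem adj_add {I : Type} (A B : Matrix I I (MonoidAlgebra ℤ G)) : adj (A + B) = adj A + adj B := by
  ext1 i j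
  unfold adj
  rw [Matrix.add_apply, Matrix.of_apply, Matrix.of_apply, Matrix.of_apply, Matrix.add_apply,
    MonoidAlgebra.mapDomain_add]

theorem adj_neg {I : Type} (A : Matrix I I (MonoidAlgebra ℤ G)) : adj (-A) = -adj A := by
  have h := adj_add (-A) A
  have h0 : adj (0 : Matrix I I (MonoidAlgebra ℤ G)) = 0 := by
    ext1 i j
    exact MonoidAlgebra.mapDomain_zero _
  rw [neg_add_cancel, h0] at h
  exact (neg_eq_of_add_eq_zero_left h.symm).symm

/-- the two inclusions -/
abbrev inl (G H : Type) [Group G] [Group H] : MonoidAlgebra ℤ G →+* MonoidAlgebra ℤ (G × H) :=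
  MonoidAlgebra.mapDomainRingHom ℤ (MonoidHom.inl G H)

abbrev inr (G H : Type) [Group G] [Group H] : MonoidAlgebra ℤ H →+* MonoidAlgebra ℤ (G × H) :=
  MonoidAlgebra.mapDomainRingHom ℤ (MonoidHom.inr G H)

theorem adj_lm {I : Type} (J : Type) [DecidableEq J] (X : Matrix I I (MonoidAlgebra ℤ G)) :
    adj (lm J (inl G H) X) = lm J (inl G H) (adj X) := by
  ext1 x y
  unfold adj lm
  rw [Matrix.of_apply, Matrix.of_apply, Matrix.of_apply, Matrix.of_apply]
  by_cases h : x.2 = y.2
  · rw [if_pos h, if_pos h.symm]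
    exact inv_map _ _
  · rw [if_neg h, if_neg (Ne.symm h)]
    exact MonoidAlgebra.mapDomain_zero _

theorem adj_rm {J : Type} (I : Type) [DecidableEq I] (X : Matrix J J (MonoidAlgebra ℤ H)) :
    adj (rm I (inr G H) X) = rm I (inr G H) (adj X) := by
  ext1 x y
  unfold adj rm
  rw [Matrix.of_apply, Matrix.of_apply, Matrix.of_apply, Matrix.of_apply]
  by_cases h : x.1 = y.1
  · rw [if_pos h, if_pos h.symm]
    exact inv_map _ _
  · rw [if_neg h, if_neg (Ne.symm h)]
    exact MonoidAlgebra.mapDomain_zero _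

theorem in_comm (a : MonoidAlgebra ℤ G) (b : MonoidAlgebra ℤ H) :
    inl G H a * inr G H b = inr G H b * inl G H a := by
  induction a using MonoidAlgebra.induction_linear with
  | zero => rw [map_zero, zero_mul, mul_zero]
  | add x x' h h' => rw [map_add, add_mul, mul_add, h, h']
  | single g a =>
    induction b using MonoidAlgebra.induction_linear with
    | zero => rw [map_zero, zero_mul, mul_zero]
    | add x x' h h' => rw [map_add, add_mul, mul_add, h, h']
    | single h b =>
      rw [mdr_single, mdr_single,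
        MonoidAlgebra.single_mul_single, MonoidAlgebra.single_mul_single, mul_comm a b]
      congr 1
      simp

theorem in_coeff (a : MonoidAlgebra ℤ G) (b : MonoidAlgebra ℤ H) :
    (inl G H a * inr G H b).coeff 1 = a.coeff 1 * b.coeff 1 := by
  induction a using MonoidAlgebra.induction_linear with
  | zero => simp
  | add x x' h h' =>
    rw [map_add, add_mul, MonoidAlgebra.coeff_add, Finsupp.add_apply, h, h', MonoidAlgebra.coeff_add,
      Finsupp.add_apply, add_mul]
  | single g a =>
    induction b using MonoidAlgebra.induction_linear with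
    | zero => simp
    | add x x' h h' =>
      rw [map_add, mul_add, MonoidAlgebra.coeff_add, Finsupp.add_apply, h, h', MonoidAlgebra.coeff_add,
        Finsupp.add_apply, mul_add]
    | single h b =>
      classical
      rw [mdr_single, mdr_single,
        MonoidAlgebra.single_mul_single, MonoidAlgebra.coeff_single, MonoidAlgebra.coeff_single,
        MonoidAlgebra.coeff_single, Finsupp.single_apply, Finsupp.single_apply, Finsupp.single_apply]
      by_cases h1 : g = 1
      · by_cases h2 : h = 1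
        · simp [h1, h2]
        · simp [h1, h2, Prod.ext_iff]
      · simp [h1, Prod.ext_iff]

section eps

variable (C : GCx G)

theorem neg_one_fix (n : ℕ) : MonoidAlgebra.mapDomain (fun g : G => g⁻¹) ((-1 : MonoidAlgebra ℤ G) ^ n) = (-1) ^ n := by
  have h1 : MonoidAlgebra.mapDomain (fun g : G => g⁻¹) (1 : MonoidAlgebra ℤ G) = 1 := by
    rw [MonoidAlgebra.one_def, MonoidAlgebra.mapDomain_single, inv_one]
  rcases neg_one_pow_eq_or (MonoidAlgebra ℤ G) n with h | h
  · rw [h, h1]
  · rw [h]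
    have h2 := MonoidAlgebra.mapDomain_add (fun g : G => g⁻¹) (-1 : MonoidAlgebra ℤ G) 1
    rw [neg_add_cancel, MonoidAlgebra.mapDomain_zero, h1] at h2
    exact (neg_eq_of_add_eq_zero_left h2.symm).symm

theorem adj_eps : adj (eps C) = eps C := by
  ext1 i j
  unfold adj eps
  rw [Matrix.of_apply]
  by_cases h : i = j
  · subst h
    rw [Matrix.diagonal_apply_eq]
    exact neg_one_fix _
  · rw [Matrix.diagonal_apply_ne _ h, Matrix.diagonal_apply_ne _ (Ne.symm h)]
    exact MonoidAlgebra.mapDomain_zero _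

theorem eps_sq : eps C * eps C = 1 := by
  unfold eps
  rw [Matrix.diagonal_mul_diagonal, ← Matrix.diagonal_one]
  congr 1
  ext1 i
  rcases neg_one_pow_eq_or (MonoidAlgebra ℤ G) (C.deg i) with h | h
  · rw [h, one_mul]
  · rw [h, neg_one_mul, neg_neg]

theorem eps_adj : eps C * adj C.D = -(adj C.D * eps C) := by
  have h := congrArg adj (eps_D C)
  rw [adj_neg, adj_mul, adj_mul, adj_eps] at h
  rw [h, neg_neg]

end eps

variable (C : GCx G) (E : GCx H)

theorem prod_D : @Eq (Matrix (C.ι × E.ι) (C.ι × E.ι) (MonoidAlgebra ℤ (G × H))) (C.prod E).D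
    (lm E.ι (inl G H) C.D + lm E.ι (inl G H) (eps C) * rm C.ι (inr G H) E.D) := by
  refine Matrix.ext (m := C.ι × E.ι) (n := C.ι × E.ι) fun x y => ?_
  have h0 : (C.prod E).D x y = (if x.2 = y.2 then MonoidAlgebra.mapDomainRingHom ℤ (MonoidHom.inl G H) (C.D x.1 y.1) else 0) +
    (if x.1 = y.1 then (-1) ^ C.deg x.1 * MonoidAlgebra.mapDomainRingHom ℤ (MonoidHom.inr G H) (E.D x.2 y.2)
      else 0) := rfl
  have h1 : (lm E.ι (inl G H) C.D + lm E.ι (inl G H) (eps C) * rm C.ι (inr G H) E.D) x y =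
      (if x.2 = y.2 then inl G H (C.D x.1 y.1) else 0) + inl G H (eps C x.1 y.1) * inr G H (E.D x.2 y.2) := by
    rw [Matrix.add_apply, lm_mul_rm]
    rfl
  refine h0.trans (Eq.trans ?_ h1.symm)
  congr 1
  unfold eps
  by_cases h : x.1 = y.1
  · rw [if_pos h, h, Matrix.diagonal_apply_eq, map_pow, map_neg, map_one]
  · rw [if_neg h, Matrix.diagonal_apply_ne _ h, map_zero, zero_mul]

/-- the Laplacian of a matrix -/
def lapD {K I : Type} [Group K] [Fintype I] (D : Matrix I I (MonoidAlgebra ℤ K)) : Matrix I I (MonoidAlgebra ℤ K) :=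
  D * adj D + adj D * D

theorem lapD_sum : lapD (lm E.ι (inl G H) C.D + lm E.ι (inl G H) (eps C) * rm C.ι (inr G H) E.D) =
    lm E.ι (inl G H) (lap C) + rm C.ι (inr G H) (lap E) := by
  unfold lap lapD
  have hc : ∀ X Y, lm E.ι (inl G H) (X : Matrix C.ι C.ι (MonoidAlgebra ℤ G)) * rm C.ι (inr G H) Y =
    rm C.ι (inr G H) Y * lm E.ι (inl G H) X := comm _ _ in_comm
  have h1 : adj (lm E.ι (inl G H) C.D + lm E.ι (inl G H) (eps C) * rm C.ι (inr G H) E.D) =
      lm E.ι (inl G H) (adj C.D) + lm E.ι (inl G H) (eps C) * rm C.ι (inr G H) (adj E.D) := by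
    rw [adj_add, adj_lm, adj_mul, adj_lm, adj_rm, adj_eps, hc]
  rw [h1]
  set P := lm E.ι (inl G H) C.D with hP
  set P' := lm E.ι (inl G H) (adj C.D) with hP'
  set Q := rm C.ι (inr G H) E.D with hQ
  set Q' := rm C.ι (inr G H) (adj E.D) with hQ'
  set e := lm E.ι (inl G H) (eps C) with he
  have e2 : e * e = 1 := by rw [he, lm_mul, eps_sq, lm_one]
  have eP : e * P = -(P * e) := by
    rw [he, hP, lm_mul, eps_D, lm_mul]
    ext1 x y
    unfold lm
    rw [Matrix.neg_apply, Matrix.of_apply, Matrix.of_apply]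
    split_ifs
    · rw [Matrix.neg_apply, map_neg]
    · rw [neg_zero]
  have eP' : e * P' = -(P' * e) := by
    rw [he, hP', lm_mul, eps_adj, lm_mul]
    ext1 x y
    unfold lm
    rw [Matrix.neg_apply, Matrix.of_apply, Matrix.of_apply]
    split_ifs
    · rw [Matrix.neg_apply, map_neg]
    · rw [neg_zero]
  have eQ : e * Q = Q * e := hc _ _
  have eQ' : e * Q' = Q' * e := hc _ _
  have PQ' : P * Q' = Q' * P := hc _ _
  have P'Q : P' * Q = Q * P' := hc _ _
  have a1 : P * (e * Q') + (e * Q') * P = 0 := by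
    rw [Matrix.mul_assoc e, ← PQ', ← Matrix.mul_assoc e, eP, ← Matrix.mul_assoc P, Matrix.neg_mul, add_neg_cancel]
  have a2 : (e * Q) * P' + P' * (e * Q) = 0 := by
    rw [Matrix.mul_assoc e, ← P'Q, ← Matrix.mul_assoc e, eP', ← Matrix.mul_assoc P', Matrix.neg_mul, neg_add_cancel]
  have a3 : (e * Q) * (e * Q') = Q * Q' := by
    rw [eQ, Matrix.mul_assoc, ← Matrix.mul_assoc e, e2, Matrix.one_mul]
  have a4 : (e * Q') * (e * Q) = Q' * Q := by
    rw [eQ', Matrix.mul_assoc, ← Matrix.mul_assoc e, e2, Matrix.one_mul]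
  have a5 : lm E.ι (inl G H) (C.D * adj C.D + adj C.D * C.D) = P * P' + P' * P := by
    rw [lm_add, lm_mul, lm_mul]
  have a6 : rm C.ι (inr G H) (E.D * adj E.D + adj E.D * E.D) = Q * Q' + Q' * Q := by
    rw [rm_add, rm_mul, rm_mul]
  rw [a5, a6, ← a3, ← a4]
  rw [Matrix.add_mul, Matrix.mul_add, Matrix.mul_add, Matrix.add_mul, Matrix.mul_add, Matrix.mul_add]
  have h5 : P * P' + P * (e * Q') + (e * Q * P' + e * Q * (e * Q')) +
      (P' * P + P' * (e * Q) + (e * Q' * P + e * Q' * (e * Q))) =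
      (P * P' + P' * P) + (e * Q * (e * Q') + e * Q' * (e * Q)) + (P * (e * Q') + (e * Q') * P) +
      ((e * Q) * P' + P' * (e * Q)) := by abel
  refine h5.trans ?_
  rw [a1, a2, add_zero, add_zero]

theorem prod_lap : @Eq (Matrix (C.ι × E.ι) (C.ι × E.ι) (MonoidAlgebra ℤ (G × H))) (lap (C.prod E))
    (lm E.ι (inl G H) (lap C) + rm C.ι (inr G H) (lap E)) := by
  have h : @Eq (Matrix (C.ι × E.ι) (C.ι × E.ι) (MonoidAlgebra ℤ (G × H))) (lap (C.prod E))
    (lapD (I := C.ι × E.ι) (C.prod E).D) := rfl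
  rw [h, prod_D, lapD_sum]

theorem main : S_PRL := by
  intro G H _ _ C E k i j
  have h0 : mom (C.prod E) k (i, j) =
      (((lm E.ι (inl G H) (lap C) + rm C.ι (inr G H) (lap E)) ^ k) (i, j) (i, j)).coeff 1 :=
    congrArg (fun M : Matrix (C.ι × E.ι) (C.ι × E.ι) (MonoidAlgebra ℤ (G × H)) => ((M ^ k) (i, j) (i, j)).coeff 1)
      (prod_lap C E)
  have h1 : ((lm E.ι (inl G H) (lap C) + rm C.ι (inr G H) (lap E)) ^ k) (i, j) (i, j) =
      ∑ l ∈ Finset.range (k + 1), (k.choose l : ℤ) •
        (inl G H ((lap C ^ l) i i) * inr G H ((lap E ^ (k - l)) j j)) := by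
    have hc : Commute (lm E.ι (inl G H) (lap C)) (rm C.ι (inr G H) (lap E)) := comm _ _ in_comm _ _
    rw [hc.add_pow k, Matrix.sum_apply]
    refine Finset.sum_congr rfl fun l _ => ?_
    rw [lm_pow, rm_pow, ← nsmul_eq_mul', Matrix.smul_apply, lm_mul_rm, natCast_zsmul]
  rw [h0, h1, MonoidAlgebra.coeff_sum, Finsupp.finsetSum_apply]
  refine Finset.sum_congr rfl fun l _ => ?_
  rw [MonoidAlgebra.coeff_smul_apply, in_coeff, smul_eq_mul]
  rfl

end Run7.h956.LT.PRL
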