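import Pool.Agent.Run7.h636.LT.Iface

/-! Project LT (helper636), piece TRL (helper956): traces of the powers of the Laplacian in one degree. -/

set_option autoImplicit false

open scoped Matrix

noncomputable section

namespace Run7.h956.LT.TRL

open Module Pool.Agent.N496.LT Pool.Agent.TH630.Tor Pool.Agent.Helper993.FK Pool.Agent.Helper993.Delta
open Run7.h636.LT

variable {G : Type} [Group G] (C : GCx G)

theorem adj_zero {i j : C.ι} (h : C.D j i = 0) : adj C.D i j = 0 := by
  unfold adj
  rw [Matrix.of_apply, h]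
  exact MonoidAlgebra.mapDomain_zero _

/-- The Laplacian preserves the degree. -/
theorem lap_deg {i j : C.ι} (h : C.deg i ≠ C.deg j) : lap C i j = 0 := by
  unfold lap
  rw [Matrix.add_apply, Matrix.mul_apply, Matrix.mul_apply,
    Finset.sum_eq_zero, Finset.sum_eq_zero, add_zero]
  · intro k _
    by_cases h1 : C.D k i = 0
    · rw [adj_zero C h1, zero_mul]
    by_cases h2 : C.D k j = 0
    · rw [h2, mul_zero]
    have h3 := C.D_deg _ _ h1
    have h4 := C.D_deg _ _ h2
    omega
  · intro k _
    by_cases h1 : C.D i k = 0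
    · rw [h1, zero_mul]
    by_cases h2 : C.D j k = 0
    · rw [adj_zero C h2, mul_zero]
    have h3 := C.D_deg _ _ h1
    have h4 := C.D_deg _ _ h2
    omega

theorem lap_pow_deg (k : ℕ) : ∀ {i j : C.ι}, C.deg i ≠ C.deg j → (lap C ^ k) i j = 0 := by
  induction k with
  | zero =>
    intro i j h
    rw [pow_zero, Matrix.one_apply_ne]
    rintro rfl
    exact h rfl
  | succ k ih =>
    intro i j h
    rw [pow_succ, Matrix.mul_apply, Finset.sum_eq_zero]
    intro l _
    by_cases h1 : C.deg i = C.deg l
    · rw [lap_deg C (i := l) (j := j) (by omega), mul_zero]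
    · rw [ih h1, zero_mul]

/-- the cells of degree `n`, numbered -/
abbrev cell (n : ℕ) (a : Fin (C.toFree.rank n)) : C.ι :=
  ((Fintype.equivFin {i : C.ι // C.deg i = n}).symm a).1

theorem cell_deg (n : ℕ) (a : Fin (C.toFree.rank n)) : C.deg (cell C n a) = n :=
  ((Fintype.equivFin {i : C.ι // C.deg i = n}).symm a).2

theorem sum_cell (n : ℕ) {M : Type} [AddCommMonoid M] (f : C.ι → M) (h : ∀ k, C.deg k ≠ n → f k = 0) :
    ∑ a : Fin (C.toFree.rank n), f (cell C n a) = ∑ k, f k := by
  rw [← sum_deg C.deg n f h]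
  exact (Fintype.equivFin {i : C.ι // C.deg i = n}).symm.sum_comp (fun x => f x.1)

theorem adjZ_mul (n : ℕ) (a b : Fin (C.toFree.rank n)) :
    (adjZ (C.toFree.d n) * C.toFree.d n) a b = (adj C.D * C.D) (cell C n a) (cell C n b) := by
  rw [Matrix.mul_apply, Matrix.mul_apply]
  rw [← sum_cell C (n + 1) (fun k => adj C.D (cell C n a) k * C.D k (cell C n b))]
  · rfl
  · intro k hk
    by_cases h : C.D k (cell C n b) = 0
    · rw [h, mul_zero]
    · exfalso
      apply hk
      rw [C.D_deg _ _ h, cell_deg]

theorem mul_adjZ (n : ℕ) (a b : Fin (C.toFree.rank (n + 1))) :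
    (C.toFree.d n * adjZ (C.toFree.d n)) a b = (C.D * adj C.D) (cell C (n + 1) a) (cell C (n + 1) b) := by
  rw [Matrix.mul_apply, Matrix.mul_apply]
  rw [← sum_cell C n (fun k => C.D (cell C (n + 1) a) k * adj C.D k (cell C (n + 1) b))]
  · rfl
  · intro k hk
    by_cases h : C.D (cell C (n + 1) a) k = 0
    · rw [h, zero_mul]
    · exfalso
      apply hk
      have := C.D_deg _ _ h
      rw [cell_deg] at this
      omega

theorem lapM_apply (n : ℕ) (a b : Fin (C.toFree.rank n)) :
    C.toFree.lapM n a b = lap C (cell C n a) (cell C n b) := by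
  cases n with
  | zero =>
    have h0 : C.toFree.lapM 0 = adjZ (C.toFree.d 0) * C.toFree.d 0 := rfl
    rw [h0, adjZ_mul]
    unfold lap
    rw [Matrix.add_apply]
    have h : (C.D * adj C.D) (cell C 0 a) (cell C 0 b) = 0 := by
      rw [Matrix.mul_apply, Finset.sum_eq_zero]
      intro k _
      by_cases h : C.D (cell C 0 a) k = 0
      · rw [h, zero_mul]
      · exfalso
        have := C.D_deg _ _ h
        rw [cell_deg] at this
        omega
    rw [h, zero_add]
  | succ n =>
    have h0 : C.toFree.lapM (n + 1) =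
      adjZ (C.toFree.d (n + 1)) * C.toFree.d (n + 1) + C.toFree.d n * adjZ (C.toFree.d n) := rfl
    rw [h0, Matrix.add_apply, adjZ_mul, mul_adjZ]
    unfold lap
    rw [Matrix.add_apply, add_comm]

theorem lapM_pow (n k : ℕ) : ∀ a b : Fin (C.toFree.rank n),
    (C.toFree.lapM n ^ k) a b = (lap C ^ k) (cell C n a) (cell C n b) := by
  induction k with
  | zero =>
    intro a b
    rw [pow_zero, pow_zero, Matrix.one_apply, Matrix.one_apply]
    congr 1
    refine propext ⟨fun h => by rw [h], fun h => ?_⟩
    have h1 : (Fintype.equivFin {i : C.ι // C.deg i = n}).symm a =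
      (Fintype.equivFin {i : C.ι // C.deg i = n}).symm b := Subtype.ext h
    exact (Fintype.equivFin {i : C.ι // C.deg i = n}).symm.injective h1
  | succ k ih =>
    intro a b
    rw [pow_succ, pow_succ, Matrix.mul_apply, Matrix.mul_apply]
    rw [← sum_cell C n (fun l => (lap C ^ k) (cell C n a) l * lap C l (cell C n b))]
    · refine Finset.sum_congr rfl fun c _ => ?_
      rw [ih, lapM_apply]
    · intro l hl
      rw [lap_pow_deg C k (i := cell C n a) (j := l) (by rw [cell_deg]; exact fun h => hl h.symm), zero_mul]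

theorem main : S_TRL := by
  intro G _ C n k
  have h1 : ∑ a : Fin (C.toFree.rank n), ((((C.toFree.lapM n) ^ k) a a).coeff 1 : ℤ) =
      ∑ a : Fin (C.toFree.rank n), (if C.deg (cell C n a) = n then mom C k (cell C n a) else 0) := by
    refine Finset.sum_congr rfl fun a _ => ?_
    rw [if_pos (cell_deg C n a), lapM_pow]
    rfl
  rw [h1]
  exact sum_cell C n (fun i => if C.deg i = n then mom C k i else 0) (fun k hk => if_neg hk)

end Run7.h956.LT.TRL
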