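import Pool.Agent.Run7.h636.LT.Iface

/-! Project LT (helper636), piece STR (helper956): the alternating sum of the traces of the powers of the Laplacian. -/

set_option autoImplicit false

open scoped Matrix

noncomputable section

namespace Run7.h956.LT.STR

open Module Pool.Agent.N496.LT Pool.Agent.TH630.Tor Pool.Agent.Helper993.FK Pool.Agent.Helper993.Delta
open Run7.h636.LT

variable {G : Type} [Group G]

theorem coeff_comm (x y : MonoidAlgebra ℤ G) : (x * y).coeff 1 = (y * x).coeff 1 := by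
  rw [MonoidAlgebra.coeff_mul_apply_left, MonoidAlgebra.coeff_mul_apply_right]
  refine Finsupp.sum_congr fun h _ => ?_
  rw [mul_one, one_mul, mul_comm]

theorem inv_mul (x y : MonoidAlgebra ℤ G) :
    MonoidAlgebra.mapDomain (fun g : G => g⁻¹) (x * y) =
      MonoidAlgebra.mapDomain (fun g : G => g⁻¹) y * MonoidAlgebra.mapDomain (fun g : G => g⁻¹) x := by
  induction x using MonoidAlgebra.induction_linear with
  | zero => rw [zero_mul, MonoidAlgebra.mapDomain_zero, mul_zero]
  | add x x' h h' => rw [add_mul, MonoidAlgebra.mapDomain_add, MonoidAlgebra.mapDomain_add, mul_add, h, h']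
  | single g a =>
    induction y using MonoidAlgebra.induction_linear with
    | zero => rw [mul_zero, MonoidAlgebra.mapDomain_zero, zero_mul]
    | add y y' h h' => rw [mul_add, MonoidAlgebra.mapDomain_add, MonoidAlgebra.mapDomain_add, add_mul, h, h']
    | single h b =>
      rw [MonoidAlgebra.single_mul_single, MonoidAlgebra.mapDomain_single, MonoidAlgebra.mapDomain_single,
        MonoidAlgebra.mapDomain_single, MonoidAlgebra.single_mul_single, mul_inv_rev, mul_comm a b]

theorem adj_mul {I : Type} [Fintype I] (A B : Matrix I I (MonoidAlgebra ℤ G)) :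
    adj (A * B) = adj B * adj A := by
  ext1 i j
  unfold adj
  rw [Matrix.of_apply, Matrix.mul_apply, Matrix.mul_apply]
  have h := map_sum (⟨⟨MonoidAlgebra.mapDomain (fun g : G => g⁻¹), MonoidAlgebra.mapDomain_zero _⟩,
    fun x y => MonoidAlgebra.mapDomain_add _ x y⟩ : MonoidAlgebra ℤ G →+ MonoidAlgebra ℤ G)
    (fun k => A j k * B k i) Finset.univ
  refine Eq.trans h (Finset.sum_congr rfl fun k _ => ?_)
  exact inv_mul _ _

/-- the trace -/
def tau {I : Type} [Fintype I] (A : Matrix I I (MonoidAlgebra ℤ G)) : ℤ := ∑ i, (A i i).coeff 1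

theorem tau_add {I : Type} [Fintype I] (A B : Matrix I I (MonoidAlgebra ℤ G)) :
    tau (A + B) = tau A + tau B := by
  unfold tau
  rw [← Finset.sum_add_distrib]
  rfl

theorem tau_neg {I : Type} [Fintype I] (A : Matrix I I (MonoidAlgebra ℤ G)) : tau (-A) = -tau A := by
  unfold tau
  rw [← Finset.sum_neg_distrib]
  rfl

theorem tau_comm {I : Type} [Fintype I] (A B : Matrix I I (MonoidAlgebra ℤ G)) :
    tau (A * B) = tau (B * A) := by
  have h : ∀ A B : Matrix I I (MonoidAlgebra ℤ G), tau (A * B) = ∑ i, ∑ j, (A i j * B j i).coeff 1 := by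
    intro A B
    unfold tau
    refine Finset.sum_congr rfl fun i _ => ?_
    rw [Matrix.mul_apply, MonoidAlgebra.coeff_sum, Finsupp.finsetSum_apply]
  rw [h, h, Finset.sum_comm]
  refine Finset.sum_congr rfl fun i _ => Finset.sum_congr rfl fun j _ => ?_
  exact coeff_comm _ _

variable (C : GCx G)

/-- the signs -/
def eps : Matrix C.ι C.ι (MonoidAlgebra ℤ G) := Matrix.diagonal fun i => (-1) ^ C.deg i

theorem eps_D : eps C * C.D = -(C.D * eps C) := by
  ext1 i j
  unfold eps
  rw [Matrix.neg_apply, Matrix.diagonal_mul, Matrix.mul_diagonal]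
  by_cases h : C.D i j = 0
  · rw [h, mul_zero, zero_mul, neg_zero]
  · rw [C.D_deg _ _ h, pow_succ]
    rcases neg_one_pow_eq_or (MonoidAlgebra ℤ G) (C.deg j) with h1 | h1 <;> rw [h1] <;> simp

theorem adj_sq : adj C.D * adj C.D = 0 := by
  rw [← adj_mul, C.D_sq]
  ext1 i j
  unfold adj
  rw [Matrix.of_apply]
  exact MonoidAlgebra.mapDomain_zero _

theorem lap_pow (k : ℕ) : lap C ^ (k + 1) = (C.D * adj C.D) ^ (k + 1) + (adj C.D * C.D) ^ (k + 1) := by
  have h1 : (C.D * adj C.D) * (adj C.D * C.D) = 0 := by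
    rw [Matrix.mul_assoc, ← Matrix.mul_assoc (adj C.D), adj_sq, Matrix.zero_mul, Matrix.mul_zero]
  have h2 : (adj C.D * C.D) * (C.D * adj C.D) = 0 := by
    rw [Matrix.mul_assoc, ← Matrix.mul_assoc C.D, C.D_sq, Matrix.zero_mul, Matrix.mul_zero]
  induction k with
  | zero => simp only [zero_add, pow_one]; rfl
  | succ k ih =>
    rw [pow_succ, ih, pow_succ (C.D * adj C.D) (k + 1), pow_succ (adj C.D * C.D) (k + 1)]
    unfold lap
    rw [Matrix.mul_add, Matrix.add_mul, Matrix.add_mul]
    have h3 : (C.D * adj C.D) ^ (k + 1) * (adj C.D * C.D) = 0 := by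
      rw [pow_succ, Matrix.mul_assoc, h1, Matrix.mul_zero]
    have h4 : (adj C.D * C.D) ^ (k + 1) * (C.D * adj C.D) = 0 := by
      rw [pow_succ, Matrix.mul_assoc, h2, Matrix.mul_zero]
    rw [h3, h4, add_zero, zero_add]

theorem shift (k : ℕ) : adj C.D * (C.D * adj C.D) ^ k * C.D = (adj C.D * C.D) ^ (k + 1) := by
  induction k with
  | zero => rw [pow_zero, Matrix.mul_one, zero_add, pow_one]
  | succ k ih =>
    rw [pow_succ (adj C.D * C.D) (k + 1), ← ih, pow_succ (C.D * adj C.D) k]
    simp only [Matrix.mul_assoc]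

theorem main : S_STR := by
  intro G _ C k hk
  obtain ⟨k, rfl⟩ : ∃ l, k = l + 1 := ⟨k - 1, by omega⟩
  have h1 : ∑ i : C.ι, (-1) ^ C.deg i * mom C (k + 1) i = tau (eps C * lap C ^ (k + 1)) := by
    unfold tau
    refine Finset.sum_congr rfl fun i _ => ?_
    unfold eps
    rw [Matrix.diagonal_mul]
    unfold mom
    rcases neg_one_pow_eq_or (MonoidAlgebra ℤ G) (C.deg i) with h1 | h1 <;>
    rcases Nat.even_or_odd (C.deg i) with h2 | h2
    · rw [h1, h2.neg_one_pow, one_mul, one_mul]
    · rw [h2.neg_one_pow, h2.neg_one_pow]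
      simp
    · rw [h2.neg_one_pow, h2.neg_one_pow, one_mul, one_mul]
    · rw [h2.neg_one_pow, h2.neg_one_pow]
      simp
  rw [h1, lap_pow, Matrix.mul_add, tau_add]
  have h2 : tau (eps C * (C.D * adj C.D) ^ (k + 1)) = -tau (eps C * (adj C.D * C.D) ^ (k + 1)) := by
    rw [pow_succ', Matrix.mul_assoc C.D, ← Matrix.mul_assoc (eps C), eps_D, Matrix.neg_mul, tau_neg,
      Matrix.mul_assoc C.D, tau_comm, Matrix.mul_assoc (eps C), shift]
  rw [h2, neg_add_cancel]

end Run7.h956.LT.STR
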